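import Mathlib

/-!
# H88K: KL-stochasticity is not closed under KL-selection: definitions

`A` is a random binary sequence with independent bits, `A(n) = 1` with probability `1/2 + d n`, `d n → 0`.
-/

set_option autoImplicit false

namespace Pool.H88K

open MeasureTheory

/-- The value `δ` cut to `[-1/4, 1/4]`. -/
noncomputable def cut (δ : ℝ) : ℝ := max (-(1 / 4)) (min (1 / 4) δ)

theorem cut_le (δ : ℝ) : cut δ ≤ 1 / 4 := by
  unfold cut
  exact max_le (by norm_num) (min_le_left _ _)

theorem le_cut (δ : ℝ) : -(1 / 4) ≤ cut δ := le_max_left _ _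

theorem cut_eq {δ : ℝ} (h : |δ| ≤ 1 / 4) : cut δ = δ := by
  obtain ⟨h1, h2⟩ := abs_le.1 h
  unfold cut
  rw [min_eq_right h2, max_eq_right (by linarith)]

/-- A coin: `true` with probability `1/2 + cut δ`. -/
noncomputable def coin (δ : ℝ) : Measure Bool :=
  ENNReal.ofReal (1 / 2 + cut δ) • Measure.dirac true + ENNReal.ofReal (1 / 2 - cut δ) • Measure.dirac false

instance (δ : ℝ) : IsProbabilityMeasure (coin δ) := by
  constructor
  have h1 := cut_le δ
  have h2 := le_cut δ
  unfold coin
  rw [Measure.add_apply, Measure.smul_apply, Measure.smul_apply, measure_univ, measure_univ, smul_eq_mul, smul_eq_mul,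
    mul_one, mul_one, ← ENNReal.ofReal_add (by linarith) (by linarith)]
  have : 1 / 2 + cut δ + (1 / 2 - cut δ) = 1 := by ring
  rw [this, ENNReal.ofReal_one]

/-- The random sequence: independent bits, `true` with probability `1/2 + cut (d n)`. -/
noncomputable def mu (d : ℕ → ℝ) : Measure (ℕ → Bool) := Measure.infinitePi (fun n => coin (d n))

instance (d : ℕ → ℝ) : IsProbabilityMeasure (mu d) := by
  unfold mu
  infer_instance

/-- The sign of a bit. -/
def sg (b : Bool) : ℝ := if b then 1 else -1

/-- The exponential moment of the sign of the coin: `M = cosh l + 2 cut(δ) sinh l`. -/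
noncomputable def mom (l δ : ℝ) : ℝ := Real.cosh l + 2 * cut δ * Real.sinh l

/-- The factor `exp (l sg b) / M`. -/
noncomputable def fac (l δ : ℝ) (b : Bool) : ℝ := Real.exp (l * sg b) / mom l δ

/-- **The history**: `P w` is the next place if the bits `w` were read. -/
def hist (P : List Bool → ℕ) (A : ℕ → Bool) : ℕ → List Bool
  | 0 => []
  | k + 1 => hist P A k ++ [A (P (hist P A k))]

/-- The next place is new. -/
def Fresh (P : List Bool → ℕ) (w : List Bool) : Prop := ∀ i < w.length, P (w.take i) ≠ P w

open Classical in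
/-- **The martingale**: at the times with `G (history)` and a new place `n` multiply by `φ n (A n)`. -/
noncomputable def Zm (P : List Bool → ℕ) (G : List Bool → Prop) (φ : ℕ → Bool → ENNReal) (A : ℕ → Bool) : ℕ → ENNReal
  | 0 => 1
  | k + 1 => Zm P G φ A k * (if G (hist P A k) ∧ Fresh P (hist P A k) then φ (P (hist P A k)) (A (P (hist P A k))) else 1)

/-- The places inspected by a rule. -/
def pos (P : List Bool → ℕ) (A : ℕ → Bool) (k : ℕ) : ℕ := P (hist P A k)

/-- The decisions of a rule. -/
def sel (P : List Bool → ℕ) (C : List Bool → Bool) (A : ℕ → Bool) (k : ℕ) : Bool := C (hist P A k)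

/-- The `j`-th selected place. -/
noncomputable def spl (P : List Bool → ℕ) (C : List Bool → Bool) (A : ℕ → Bool) (j : ℕ) : ℕ :=
  pos P A (Nat.nth (fun k => sel P C A k = true) j)

/-- The run on `A` is fair: no place twice, infinitely many selections. -/
def Good (P : List Bool → ℕ) (C : List Bool → Bool) (A : ℕ → Bool) : Prop :=
  Function.Injective (pos P A) ∧ Set.Infinite {k : ℕ | sel P C A k = true}

/-! ## The sequence and the two rules -/

/-- The bias of stage `k`: `(k + 1) ^ (-1/4) / 4`. -/
noncomputable def ee (k : ℕ) : ℝ := 1 / (4 * Real.sqrt (Real.sqrt (k + 1)))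

/-- The biases: place `3 l`: none, `3 l + 1`: `- ee k`, `3 l + 2`: `+ ee k`, `k = ⌊√l⌋`. -/
noncomputable def dd (n : ℕ) : ℝ :=
  if n % 3 = 0 then 0 else if n % 3 = 1 then -ee (Nat.sqrt (n / 3)) else ee (Nat.sqrt (n / 3))

/-- The rule `S` (it selects everything). -/
def f1 (w : List Bool) : ℕ :=
  if w.length = Nat.sqrt w.length * Nat.sqrt w.length then 3 * w.length
  else 3 * w.length + 1 + (w.getD (Nat.sqrt w.length * Nat.sqrt w.length) false).toNat

/-- The places of the rule `S` on `A`. -/
def pos1 (A : ℕ → Bool) (l : ℕ) : ℕ :=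
  if l = Nat.sqrt l * Nat.sqrt l then 3 * l else 3 * l + 1 + (A (3 * (Nat.sqrt l * Nat.sqrt l))).toNat

/-- The selected sequence. -/
def BB (A : ℕ → Bool) (l : ℕ) : Bool := A (pos1 A l)

/-- The number of `true` among the entries of `w` with index `≥ m`. -/
def cnt (m : ℕ) (w : List Bool) : ℕ := ((List.range w.length).filter fun i => decide (m ≤ i) && w.getD i false).length

/-- The rule `S'`: the next place. -/
def f2 (w : List Bool) : ℕ :=
  if w.length = Nat.sqrt w.length * Nat.sqrt w.length + 2 * Nat.sqrt w.length then Nat.sqrt w.length * Nat.sqrt w.length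
  else w.length + 1

/-- The rule `S'`: the decision. -/
def c2 (w : List Bool) : Bool :=
  decide (w.length = Nat.sqrt w.length * Nat.sqrt w.length + 2 * Nat.sqrt w.length) &&
    decide (Nat.sqrt w.length < cnt (Nat.sqrt w.length * Nat.sqrt w.length) w)

/-- The law of large numbers for the sequence `x`. -/
def LLN (x : ℕ → Bool) : Prop :=
  Filter.Tendsto (fun m : ℕ => (((Finset.range m).filter (fun j => x j = true)).card : ℝ) / (m : ℝ)) Filter.atTop
    (nhds (1 / 2 : ℝ))

/-- KL-stochastic sequences (as in the frozen statement). -/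
def KLs (X : ℕ → Bool) : Prop :=
  ∀ f : List Bool →. ℕ × Bool, Partrec f →
    ∀ pos : ℕ → ℕ, ∀ sel : ℕ → Bool,
      (∀ k : ℕ, f (List.ofFn (fun i : Fin k => X (pos i))) = Part.some (pos k, sel k)) →
      Function.Injective pos →
      Set.Infinite {k : ℕ | sel k = true} →
      Filter.Tendsto
        (fun m : ℕ =>
          (((Finset.range m).filter
            (fun j => X (pos (Nat.nth (fun k => sel k = true) j)) = true)).card : ℝ) / (m : ℝ))
        Filter.atTop (nhds (1 / 2 : ℝ))

end Pool.H88K
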