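import Pool.Agent.Lib.H88K.Defs

/-!
# H88K, chunk K1: the coin
-/

set_option autoImplicit false

namespace Pool.H88K

open MeasureTheory

/-- Integral of a function of the coin. Proof: `lintegral_add_measure`, `lintegral_smul_measure`, `lintegral_dirac`. -/
theorem k1_lint (δ : ℝ) (φ : Bool → ENNReal) :
    ∫⁻ b, φ b ∂(coin δ) = ENNReal.ofReal (1 / 2 + cut δ) * φ true + ENNReal.ofReal (1 / 2 - cut δ) * φ false := by
  sorry

/-- `M > 0`: `cosh l + 2 c sinh l = (1/2 + c) exp l + (1/2 - c) exp (-l)` and `|c| ≤ 1/4` (`cut_le`, `le_cut`). -/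
theorem k1_mom_pos (l δ : ℝ) : 0 < mom l δ := by
  sorry

/-- The factor has mean one. Proof: `k1_lint`, `ENNReal.ofReal_mul`, `ENNReal.ofReal_add`, and `(1/2 + c) exp l + (1/2 - c) exp (-l) = M` (`Real.cosh_eq`, `Real.sinh_eq`). -/
theorem k1_fac (l δ : ℝ) : ∫⁻ b, ENNReal.ofReal (fac l δ b) ∂(coin δ) = 1 := by
  sorry

/-- `log M ≤ l ^ 2 / 2 + 2 |δ| |sinh l|` for `|δ| ≤ 1/4`. Proof: `cut δ = δ` (`cut_eq`), `M ≤ cosh l + 2 |δ| |sinh l| ≤ cosh l (1 + 2 |δ| |sinh l|)` (`cosh l ≥ 1`), `cosh l ≤ exp (l ^ 2 / 2)` (`Real.cosh_le_exp_half_sq`),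
`log (1 + x) ≤ x`. -/
theorem k1_mom_log (l δ : ℝ) (h : |δ| ≤ 1 / 4) : Real.log (mom l δ) ≤ l ^ 2 / 2 + 2 * |δ| * |Real.sinh l| := by
  sorry

end Pool.H88K
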