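import Pool.Agent.Lib.H88K.K4

/-!
# H88K, chunk K7: the majority of the bits of stage `k`
-/

set_option autoImplicit false

namespace Pool.H88K

open MeasureTheory Filter

/-- `0 < ee k ≤ 1/4`, and `ee` tends to `0`. -/
theorem k7_ee_pos (k : ℕ) : 0 < ee k := by
  sorry

theorem k7_ee_le (k : ℕ) : ee k ≤ 1 / 4 := by
  sorry

theorem k7_ee_tendsto : Tendsto ee atTop (nhds 0) := by
  sorry

/-- `dd → 0` and `|dd n| ≤ 1/4`. (`n / 3 → ∞`, `Nat.sqrt → ∞`.) -/
theorem k7_dd_tendsto : Tendsto dd atTop (nhds 0) := by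
  sorry

theorem k7_dd_le (n : ℕ) : |dd n| ≤ 1 / 4 := by
  sorry

/-- The values of `dd` at the places of stage `k`: `Nat.sqrt (k*k + 1 + i) = k` for `i < 2 k` (`Nat.sqrt_add_eq`). -/
theorem k7_dd_one {k i : ℕ} (h : i < 2 * k) : dd (3 * (k * k + 1 + i) + 1) = -ee k := by
  sorry

theorem k7_dd_two {k i : ℕ} (h : i < 2 * k) : dd (3 * (k * k + 1 + i) + 2) = ee k := by
  sorry

/-- **One stage**: `c = true`: the places `3 l + 2` are biased to `true`; the probability that at most `k` of the `2 k` bits are `true` is `≤ exp (-2 k (ee k)^2)`; `c = false`: the same for the places `3 l + 1` and `false`.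
Proof: apply `k4_tail`'s method to the rule `P w = 3 (k*k + 1 + |w|) + 2` (resp. `+ 1`), `C = true`, or directly `k3_mean` with `G = True` and `φ n b = ofReal (fac l (dd n) b)`, `l = - ee k` (resp. `ee k`), `2 k` steps: all places are new,
`Zm = ∏ fac`, and on the event `∑ sg ≤ 0` (resp. `≥ 0`, i.e. at least `k` of the bits are `false`/`true`), so `Zm ≥ M ^ (-2k)`, `M = cosh (ee k) - 2 ee k sinh (ee k)`. With `e = ee k ≤ 1/4`: `cosh e ≤ exp (e^2/2) ≤ 1 + e^2` hmm: use
`cosh e ≤ 1 + e^2` (for `|e| ≤ 1`) and `sinh e ≥ e`: `M ≤ 1 + e^2 - 2 e^2 = 1 - e^2 ≤ exp (-e^2)`. Markov: probability `≤ M ^ (2k) ≤ exp (-2 k e^2)`. -/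
theorem k7_stage (c : Bool) (k : ℕ) :
    mu dd {A : ℕ → Bool | ((Finset.range (2 * k)).filter fun i => A (3 * (k * k + 1 + i) + 1 + c.toNat) = c).card ≤ k ∧
      (c = false → ((Finset.range (2 * k)).filter fun i => A (3 * (k * k + 1 + i) + 1 + c.toNat) = c).card < k)} ≤
      ENNReal.ofReal (Real.exp (-(2 * k * ee k ^ 2))) := by
  sorry

/-- The bounds are summable: `2 k (ee k)^2 = k / (8 sqrt (k+1)) ≥ sqrt k / 16` for `k ≥ 1`, and `exp (- sqrt k / 16) ≤ C / k^2`. -/
theorem k7_summable : Summable fun k : ℕ => Real.exp (-(2 * k * ee k ^ 2)) := by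
  sorry

/-- **Almost surely for all large `k`**: more than `k` of the bits `A (3 l + 2)`, `l = k*k + 1 + i`, `i < 2 k`, are `true`, and at most `k` of the bits `A (3 l + 1)` are `true`. Proof: `k7_stage` for `c = true` and `c = false`
(number of `true` `≤ k` iff number of `false` `≥ k`), `k7_summable`, Borel-Cantelli. -/
theorem k7_majority : ∀ᵐ A ∂(mu dd), ∀ᶠ k : ℕ in atTop,
    k < ((Finset.range (2 * k)).filter fun i => A (3 * (k * k + 1 + i) + 2) = true).card ∧
    ((Finset.range (2 * k)).filter fun i => A (3 * (k * k + 1 + i) + 1) = true).card ≤ k := by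
  sorry

end Pool.H88K
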