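import Pool.Agent.Lib.H88K.Defs

/-!
# H88K, chunk K8: the rules are computable
-/

set_option autoImplicit false

namespace Pool.H88K

theorem k8_len : Primrec (fun w : List Bool => w.length) := Primrec.list_length

theorem k8_sqrt : Primrec (fun w : List Bool => Nat.sqrt w.length) := Primrec.nat_sqrt.comp k8_len

theorem k8_sq : Primrec (fun w : List Bool => Nat.sqrt w.length * Nat.sqrt w.length) :=
  Primrec.nat_mul.comp k8_sqrt k8_sqrt

theorem k8_three : Primrec (fun w : List Bool => 3 * w.length) :=
  Primrec.nat_mul.comp (Primrec.const 3) k8_len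

theorem k8_end : Primrec (fun w : List Bool => Nat.sqrt w.length * Nat.sqrt w.length + 2 * Nat.sqrt w.length) :=
  Primrec.nat_add.comp k8_sq (Primrec.nat_mul.comp (Primrec.const 2) k8_sqrt)

theorem k8_f1p : Primrec f1 := by
  refine (Primrec.ite (c := fun w : List Bool => w.length = Nat.sqrt w.length * Nat.sqrt w.length)
    (f := fun w => 3 * w.length)
    (g := fun w => 3 * w.length + 1 + (w.getD (Nat.sqrt w.length * Nat.sqrt w.length) false).toNat)
    (Primrec.eq.comp k8_len k8_sq) k8_three ?_).of_eq fun w => rfl
  refine Primrec.nat_add.comp (Primrec.succ.comp k8_three) ?_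
  exact (Primrec.dom_bool Bool.toNat).comp ((Primrec.list_getD false).comp Primrec.id k8_sq)

/-- `f1` is computable. (`Primrec.list_length`, `Primrec.nat_sqrt`, `Primrec.nat_mul`, `Primrec.ite`, `PrimrecRel` of equality, `Primrec.list_getD`, and `Bool.toNat` is `Primrec.dom_finite` / `Primrec.dom_bool`.) -/
theorem k8_f1 : Computable f1 := k8_f1p.to_comp

/-- `f2` is computable. -/
theorem k8_f2 : Computable f2 := by
  refine Primrec.to_comp ?_
  exact (Primrec.ite (c := fun w : List Bool => w.length = Nat.sqrt w.length * Nat.sqrt w.length + 2 * Nat.sqrt w.length)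
    (f := fun w => Nat.sqrt w.length * Nat.sqrt w.length)
    (g := fun w => w.length + 1)
    (Primrec.eq.comp k8_len k8_end) k8_sq (Primrec.succ.comp k8_len)).of_eq fun w => rfl

theorem k8_cntp : Primrec fun p : ℕ × List Bool => cnt p.1 p.2 := by
  have hg : Primrec₂ fun (p : ℕ × List Bool) (i : ℕ) =>
      (if (decide (p.1 ≤ i) && p.2.getD i false) = true then some i else none : Option ℕ) := by
    refine Primrec.ite ?_ (Primrec.option_some.comp Primrec.snd) (Primrec.const none)
    refine PrimrecRel.comp Primrec.eq ?_ (Primrec.const true)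
    refine Primrec.and.comp ?_ ?_
    · exact (Primrec.nat_le.decide).comp (Primrec.fst.comp Primrec.fst) Primrec.snd
    · exact (Primrec.list_getD false).comp (Primrec.snd.comp Primrec.fst) Primrec.snd
  have hf : Primrec fun p : ℕ × List Bool => List.range p.2.length :=
    Primrec.list_range.comp (Primrec.list_length.comp Primrec.snd)
  refine (Primrec.list_length.comp (Primrec.listFilterMap hf hg)).of_eq fun p => ?_
  unfold cnt
  congr 1
  rw [← List.filterMap_eq_filter]
  rfl

/-- `cnt` is computable (as a function of a pair). (`List.range`: `Primrec.list_range`; filter with a parameter: `Primrec.listFilter` or write the length of the filter as a `List.foldl` / `Primrec.list_foldl` and prove equality.) -/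
theorem k8_cnt : Computable fun p : ℕ × List Bool => cnt p.1 p.2 := k8_cntp.to_comp

/-- `c2` is computable. -/
theorem k8_c2 : Computable c2 := by
  refine Primrec.to_comp ?_
  have h1 : Primrec fun w : List Bool =>
      decide (w.length = Nat.sqrt w.length * Nat.sqrt w.length + 2 * Nat.sqrt w.length) :=
    (Primrec.eq.decide).comp k8_len k8_end
  have h2 : Primrec fun w : List Bool => cnt (Nat.sqrt w.length * Nat.sqrt w.length) w :=
    k8_cntp.comp (Primrec.pair k8_sq Primrec.id)
  have h3 : Primrec fun w : List Bool =>
      decide (Nat.sqrt w.length < cnt (Nat.sqrt w.length * Nat.sqrt w.length) w) :=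
    (Primrec.nat_lt.decide).comp k8_sqrt h2
  exact (Primrec.and.comp h1 h3).of_eq fun w => rfl

/-- The two rules are partial computable. (`Computable.partrec`, `Computable.pair`.) -/
theorem k8_rule1 : Partrec (fun w : List Bool => (Part.some (f1 w, true) : Part (ℕ × Bool))) :=
  (Computable.pair k8_f1 (Computable.const true)).partrec

theorem k8_rule2 : Partrec (fun w : List Bool => (Part.some (f2 w, c2 w) : Part (ℕ × Bool))) :=
  (Computable.pair k8_f2 k8_c2).partrec

end Pool.H88K
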