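import Pool.Agent.Lib.H88K.Defs

/-!
# H88K, chunk K9: the runs of the two rules (deterministic)
-/

set_option autoImplicit false

namespace Pool.H88K

open Filter

/-- The integer square root inside a stage. -/
theorem k9_sqrt {k l : ℕ} (h1 : k * k ≤ l) (h2 : l ≤ k * k + 2 * k) : Nat.sqrt l = k := by
  symm
  rw [Nat.eq_sqrt]
  refine ⟨h1, ?_⟩
  have : (k + 1) * (k + 1) = k * k + 2 * k + 1 := by ring
  omega

theorem k9_le (l : ℕ) : Nat.sqrt l * Nat.sqrt l ≤ l := Nat.sqrt_le l

theorem k9_ge (l : ℕ) : l ≤ Nat.sqrt l * Nat.sqrt l + 2 * Nat.sqrt l := by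
  have := Nat.sqrt_le_add l
  omega

/-- The length of a filtered range is the cardinality of the filtered `Finset.range`. -/
theorem k9_card (b : ℕ) (p : ℕ → Bool) : ((List.range b).filter p).length = ((Finset.range b).filter fun i => p i = true).card := by
  induction b with
  | zero => simp
  | succ b ih =>
    rw [List.range_succ, List.filter_append, List.length_append, ih, Finset.range_add_one, Finset.filter_insert]
    cases hp : p b with
    | true => simp [hp]
    | false => simp [hp]

/-- `pos1 A l / 3 = l`, so `pos1 A` is injective. -/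
theorem k9_pos1_inj (A : ℕ → Bool) : Function.Injective (pos1 A) := by
  have key : ∀ l, pos1 A l / 3 = l := by
    intro l
    unfold pos1
    split_ifs
    · omega
    · have := Bool.toNat_le (A (3 * (Nat.sqrt l * Nat.sqrt l)))
      omega
  intro l l' h
  rw [← key l, ← key l', h]

/-- The run of the rule `S` on `A`: the list `A (pos1 A 0), ..., A (pos1 A (l-1))` has at the index `h = (sqrt l)^2 < l` (if `l` is no square) the bit `A (pos1 A h) = A (3 h)`, since `sqrt h = sqrt l` (`Nat.sqrt_eq'`/`Nat.sqrt_eq`). -/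
theorem k9_run1 (A : ℕ → Bool) (l : ℕ) : f1 (List.ofFn (fun i : Fin l => A (pos1 A i))) = pos1 A l := by
  unfold f1
  rw [List.length_ofFn]
  by_cases h : l = Nat.sqrt l * Nat.sqrt l
  · rw [if_pos h]
    unfold pos1
    rw [if_pos h]
  · rw [if_neg h]
    have hlt : Nat.sqrt l * Nat.sqrt l < l := lt_of_le_of_ne (k9_le l) (fun h' => h h'.symm)
    rw [List.getD_eq_getElem _ _ (by rw [List.length_ofFn]; exact hlt), List.getElem_ofFn]
    have h2 : pos1 A (Nat.sqrt l * Nat.sqrt l) = 3 * (Nat.sqrt l * Nat.sqrt l) := by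
      unfold pos1
      rw [Nat.sqrt_eq, if_pos rfl]
    show 3 * l + 1 + (A (pos1 A (Nat.sqrt l * Nat.sqrt l))).toNat = pos1 A l
    rw [h2]
    unfold pos1
    rw [if_neg h]

/-- The places of the rule `S'`: for `l = k^2 + j`: `l + 1` if `j < 2 k`, and `k^2` if `j = 2 k`. -/
def k9_pos2 (l : ℕ) : ℕ :=
  if l = Nat.sqrt l * Nat.sqrt l + 2 * Nat.sqrt l then Nat.sqrt l * Nat.sqrt l else l + 1

/-- `k9_pos2` is injective (it is a permutation: on `k^2, ..., k^2 + 2k` the cycle). Proof: `k9_pos2 l` lies in the same stage `[k^2, k^2+2k]` as `l`: `sqrt (k9_pos2 l) = sqrt l`; then compare inside a stage. -/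
theorem k9_pos2_inj : Function.Injective k9_pos2 := by
  have key : ∀ l, Nat.sqrt (k9_pos2 l) = Nat.sqrt l := by
    intro l
    have h1 := k9_le l
    have h2 := k9_ge l
    unfold k9_pos2
    split_ifs with h
    · exact Nat.sqrt_eq _
    · exact k9_sqrt (by omega) (by omega)
  intro l l' h
  have hk : Nat.sqrt l = Nat.sqrt l' := by rw [← key l, ← key l', h]
  have h1 := k9_le l
  have h2 := k9_ge l
  have h1' := k9_le l'
  have h2' := k9_ge l'
  unfold k9_pos2 at h
  rw [← hk] at h h1' h2'
  split_ifs at h <;> omega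

/-- The run of the rule `S'` on any sequence `X`. (`f2` depends only on the length.) -/
theorem k9_run2 (X : ℕ → Bool) (l : ℕ) : f2 (List.ofFn (fun i : Fin l => X (k9_pos2 i))) = k9_pos2 l := by
  unfold f2 k9_pos2
  rw [List.length_ofFn]

/-- The decision of the rule `S'` on the sequence `X` at the end of stage `k`: `true` iff more than `k` of the bits `X (k^2 + 1), ..., X (k^2 + 2k)` are `true`. Proof: the list has length `k^2 + 2k`, `sqrt = k`; the entries with index
`i ≥ k^2` are `X (i + 1)`; so `cnt = #{i < k*k + 2*k | k*k ≤ i ∧ X (i+1)}`. -/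
theorem k9_dec (X : ℕ → Bool) (k : ℕ) :
    c2 (List.ofFn (fun i : Fin (k * k + 2 * k) => X (k9_pos2 i))) =
      decide (k < ((Finset.range (2 * k)).filter fun i => X (k * k + 1 + i) = true).card) := by
  have hs : Nat.sqrt (k * k + 2 * k) = k := k9_sqrt (by omega) le_rfl
  unfold c2
  rw [List.length_ofFn, hs]
  simp only [decide_true, Bool.true_and]
  congr 1
  unfold cnt
  rw [List.length_ofFn, List.range_add, List.filter_append, List.length_append]
  have h0 : (List.filter (fun i => decide (k * k ≤ i) &&
      (List.ofFn (fun i : Fin (k * k + 2 * k) => X (k9_pos2 i))).getD i false) (List.range (k * k))) = [] := by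
    rw [List.filter_eq_nil_iff]
    intro a ha
    rw [List.mem_range] at ha
    simp [not_le.2 ha]
  rw [h0, List.length_nil, zero_add, List.filter_map, List.length_map, k9_card]
  have hset : ((Finset.range (2 * k)).filter fun i => ((fun i => decide (k * k ≤ i) &&
      (List.ofFn (fun i : Fin (k * k + 2 * k) => X (k9_pos2 i))).getD i false) ∘ fun x => k * k + x) i = true) =
      ((Finset.range (2 * k)).filter fun i => X (k * k + 1 + i) = true) := by
    refine Finset.filter_congr (fun i hi => ?_)
    rw [Finset.mem_range] at hi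
    have hlt : k * k + i < k * k + 2 * k := by omega
    have hp : k9_pos2 (k * k + i) = k * k + 1 + i := by
      have hs2 : Nat.sqrt (k * k + i) = k := k9_sqrt (by omega) (by omega)
      unfold k9_pos2
      rw [hs2, if_neg (by omega)]
      omega
    show (decide (k * k ≤ k * k + i) && (List.ofFn (fun i : Fin (k * k + 2 * k) => X (k9_pos2 i))).getD (k * k + i) false) =
      true ↔ _
    rw [List.getD_eq_getElem _ _ (by rw [List.length_ofFn]; exact hlt), List.getElem_ofFn]
    show (decide (k * k ≤ k * k + i) && X (k9_pos2 (k * k + i))) = true ↔ _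
    rw [hp]
    simp
  rw [hset]

/-- At the other times nothing is selected. -/
theorem k9_dec_false (X : ℕ → Bool) {l : ℕ} (h : l ≠ Nat.sqrt l * Nat.sqrt l + 2 * Nat.sqrt l) :
    c2 (List.ofFn (fun i : Fin l => X (k9_pos2 i))) = false := by
  unfold c2
  rw [List.length_ofFn, decide_eq_false h, Bool.false_and]

/-- The bits of the sequence `BB A` at stage `k`. (`Nat.sqrt (k*k + 1 + i) = k` for `i < 2k`: `Nat.sqrt_add_eq`.) -/
theorem k9_BB_head (A : ℕ → Bool) (k : ℕ) : BB A (k * k) = A (3 * (k * k)) := by
  unfold BB pos1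
  rw [Nat.sqrt_eq, if_pos rfl]

theorem k9_BB_block (A : ℕ → Bool) {k i : ℕ} (h : i < 2 * k) :
    BB A (k * k + 1 + i) = A (3 * (k * k + 1 + i) + 1 + (A (3 * (k * k))).toNat) := by
  have hs : Nat.sqrt (k * k + 1 + i) = k := k9_sqrt (by omega) (by omega)
  unfold BB pos1
  rw [hs, if_neg (by omega)]

end Pool.H88K
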