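import Pool.Agent.Lib.H88K.K6
import Pool.Agent.Lib.H88K.K7
import Pool.Agent.Lib.H88K.K8
import Pool.Agent.Lib.H88K.K9

/-!
# H88K, chunk K10: assembly
-/

set_option autoImplicit false

namespace Pool.H88K

open Filter MeasureTheory

theorem k10_nth_true (j : ℕ) : Nat.nth (fun _ : ℕ => (true : Bool) = true) j = j := by
  have h4 := Nat.nth_count (p := fun _ : ℕ => (true : Bool) = true) (n := j) rfl
  have h5 : Nat.count (fun _ : ℕ => (true : Bool) = true) j = j := by
    clear h4
    induction j with
    | zero => rfl
    | succ n ih =>
      rw [Nat.count_succ, ih]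
      simp
  rw [h5] at h4
  exact h4

/-- A sequence whose `true`s are only finitely many has frequency `0`. -/
theorem k10_zero (x : ℕ → Bool) (N : ℕ) (h : ∀ j ≥ N, x j = false) : ¬ LLN x := by
  intro hL
  have h1 : Tendsto (fun m : ℕ => (((Finset.range m).filter (fun j => x j = true)).card : ℝ) / (m : ℝ)) atTop (nhds 0) := by
    refine squeeze_zero (g := fun m : ℕ => (N : ℝ) / m) (fun m => by positivity) (fun m => ?_) ?_
    · refine div_le_div_of_nonneg_right ?_ (Nat.cast_nonneg m)
      have h2 : ((Finset.range m).filter (fun j => x j = true)).card ≤ (Finset.range N).card := by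
        refine Finset.card_le_card fun j hj => ?_
        rw [Finset.mem_filter] at hj
        rw [Finset.mem_range]
        by_contra hc
        rw [h j (not_lt.1 hc)] at hj
        exact Bool.false_ne_true hj.2
      rw [Finset.card_range] at h2
      exact_mod_cast h2
    · exact tendsto_const_div_atTop_nhds_zero_nat (N : ℝ)
  have h3 := tendsto_nhds_unique h1 hL
  norm_num at h3

/-- A sequence whose `false`s are only finitely many has frequency `1`. -/
theorem k10_one (x : ℕ → Bool) (N : ℕ) (h : ∀ j ≥ N, x j = true) : ¬ LLN x := by
  intro hL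
  have h1 : Tendsto (fun m : ℕ => (((Finset.range m).filter (fun j => x j = true)).card : ℝ) / (m : ℝ)) atTop (nhds 1) := by
    have h0 : Tendsto (fun m : ℕ => 1 - (N : ℝ) / m) atTop (nhds (1 - 0)) :=
      tendsto_const_nhds.sub (tendsto_const_div_atTop_nhds_zero_nat (N : ℝ))
    rw [sub_zero] at h0
    refine tendsto_of_tendsto_of_tendsto_of_le_of_le' h0 tendsto_const_nhds ?_ ?_
    · filter_upwards [eventually_gt_atTop 0] with m hm
      have hm' : (0 : ℝ) < m := by exact_mod_cast hm
      rw [sub_le_iff_le_add, ← add_div, le_div_iff₀ hm', one_mul]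
      have h2 : (Finset.range m).card ≤ ((Finset.range m).filter (fun j => x j = true)).card + N := by
        have h3 : Finset.range m ⊆ (Finset.range m).filter (fun j => x j = true) ∪ Finset.range N := by
          intro j hj
          rw [Finset.mem_union, Finset.mem_filter, Finset.mem_range]
          by_cases hc : j < N
          · exact Or.inr (Finset.mem_range.2 hc)
          · exact Or.inl ⟨Finset.mem_range.1 hj, h j (not_lt.1 hc)⟩
        refine (Finset.card_le_card h3).trans ((Finset.card_union_le _ _).trans ?_)
        rw [Finset.card_range]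
      rw [Finset.card_range] at h2
      exact_mod_cast h2
    · filter_upwards [eventually_gt_atTop 0] with m hm
      have hm' : (0 : ℝ) < m := by exact_mod_cast hm
      rw [div_le_one hm']
      have h2 := Finset.card_filter_le (Finset.range m) (fun j => x j = true)
      rw [Finset.card_range] at h2
      exact_mod_cast h2
  have h3 := tendsto_nhds_unique h1 hL
  norm_num at h3

/-- A KL-stochastic sequence has infinitely many `k` with `A (3 k^2) = true`. Proof: the rule `w ↦ (3 |w|^2, true)` is partial computable (`Computable.partrec`), `pos k = 3 (k*k)` is injective, `sel = true`, `Nat.nth (fun _ => True) = id`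
(`Nat.nth_of_forall` or `Nat.nth_count`); so the frequency of the `k` with `A (3 k^2) = true` tends to `1/2`; if there were only finitely many, it would tend to `0`. -/
theorem k10_inf (A : ℕ → Bool) (h : KLs A) : Set.Infinite {k : ℕ | A (3 * (k * k)) = true} := by
  have hf : Partrec (fun w : List Bool => (Part.some (3 * (w.length * w.length), true) : Part (ℕ × Bool))) := by
    have h1 : Primrec (fun w : List Bool => (3 * (w.length * w.length), true)) :=
      Primrec.pair (Primrec.nat_mul.comp (Primrec.const 3) (Primrec.nat_mul.comp Primrec.list_length Primrec.list_length))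
        (Primrec.const true)
    exact h1.to_comp.partrec
  have h1 := h _ hf (fun k => 3 * (k * k)) (fun _ => true) (fun k => by simp)
    (fun a b hab => by
      have h2 : 3 * (a * a) = 3 * (b * b) := hab
      have h3 : a * a = b * b := by omega
      exact Nat.mul_self_inj.1 h3)
    (by
      have : {k : ℕ | (fun _ : ℕ => true) k = true} = Set.univ := by ext; simp
      rw [this]
      exact Set.infinite_univ)
  intro hfin
  obtain ⟨N, hN⟩ := hfin.bddAbove
  refine k10_zero (fun k => A (3 * (k * k))) (N + 1) (fun j hj => ?_) ?_
  · by_contra hc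
    have h2 : j ∈ {k : ℕ | A (3 * (k * k)) = true} := by
      rw [Bool.not_eq_false] at hc
      exact hc
    have := hN h2
    omega
  · unfold LLN
    refine h1.congr fun m => ?_
    have h2 : ((Finset.range m).filter fun j => A ((fun k => 3 * (k * k)) (Nat.nth (fun k => (fun _ : ℕ => true) k = true) j)) = true) =
        (Finset.range m).filter fun j => A (3 * (j * j)) = true := by
      refine Finset.filter_congr fun j _ => ?_
      rw [show Nat.nth (fun k => (fun _ : ℕ => true) k = true) j = j from k10_nth_true j]
    rw [h2]

/-- **The deterministic end**: if `A` is KL-stochastic and satisfies the majority property of `k7_majority`, then `BB A` is not KL-stochastic. -/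
theorem k10_not (A : ℕ → Bool) (h : KLs A)
    (hm : ∀ᶠ k : ℕ in atTop,
      k < ((Finset.range (2 * k)).filter fun i => A (3 * (k * k + 1 + i) + 2) = true).card ∧
      ((Finset.range (2 * k)).filter fun i => A (3 * (k * k + 1 + i) + 1) = true).card ≤ k) : ¬ KLs (BB A) := by
  intro hB
  set sl : ℕ → Bool := fun l => c2 (List.ofFn (fun i : Fin l => BB A (k9_pos2 i))) with hsl
  have hdec : ∀ k, sl (k * k + 2 * k) = decide (k < ((Finset.range (2 * k)).filter fun i => BB A (k * k + 1 + i) = true).card) :=
    fun k => k9_dec (BB A) k
  obtain ⟨K, hK⟩ := eventually_atTop.1 hm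
  -- the decision at stage `k ≥ K` is the bit
  have hbit : ∀ k ≥ K, sl (k * k + 2 * k) = A (3 * (k * k)) := by
    intro k hk
    rw [hdec]
    obtain ⟨h1, h2⟩ := hK k hk
    cases hA : A (3 * (k * k)) with
    | true =>
      have e : ((Finset.range (2 * k)).filter fun i => BB A (k * k + 1 + i) = true) =
          (Finset.range (2 * k)).filter fun i => A (3 * (k * k + 1 + i) + 2) = true := by
        refine Finset.filter_congr fun i hi => ?_
        rw [k9_BB_block A (Finset.mem_range.1 hi), hA]
        rfl
      rw [e]
      exact decide_eq_true h1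
    | false =>
      have e : ((Finset.range (2 * k)).filter fun i => BB A (k * k + 1 + i) = true) =
          (Finset.range (2 * k)).filter fun i => A (3 * (k * k + 1 + i) + 1) = true := by
        refine Finset.filter_congr fun i hi => ?_
        rw [k9_BB_block A (Finset.mem_range.1 hi), hA]
        rfl
      rw [e]
      exact decide_eq_false (not_lt.2 h2)
  have hpos : ∀ k, k9_pos2 (k * k + 2 * k) = k * k := by
    intro k
    have hs : Nat.sqrt (k * k + 2 * k) = k := Nat.sqrt_add_eq k (by omega)
    unfold k9_pos2
    rw [hs, if_pos rfl]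
  have hinf : Set.Infinite {l : ℕ | sl l = true} := by
    have h1 := k10_inf A h
    have h2 : Set.Infinite ({k : ℕ | A (3 * (k * k)) = true} \ {k | k < K}) := h1.diff (Set.finite_lt_nat K)
    refine Set.infinite_of_injOn_mapsTo (f := fun k => k * k + 2 * k) ?_ ?_ h2
    · intro a _ b _ hab
      have h3 : a * a + 2 * a = b * b + 2 * b := hab
      have h4 : (a + 1) * (a + 1) = (b + 1) * (b + 1) := by ring_nf; ring_nf at h3; omega
      have := Nat.mul_self_inj.1 h4
      omega
    · intro k hk
      have h3 : A (3 * (k * k)) = true := hk.1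
      have h4 : K ≤ k := not_lt.1 hk.2
      change sl (k * k + 2 * k) = true
      rw [hbit k h4, h3]
  have h1 := hB _ k8_rule2 k9_pos2 sl (fun k => by rw [k9_run2]) k9_pos2_inj hinf
  refine k10_one (fun j => BB A (k9_pos2 (Nat.nth (fun l => sl l = true) j))) (K * K + 2 * K) (fun j hj => ?_) ?_
  · set l := Nat.nth (fun l => sl l = true) j with hl
    have h2 : sl l = true := Nat.nth_mem_of_infinite hinf j
    have h3 : j ≤ l := (Nat.nth_strictMono hinf).id_le j
    have h4 : l = Nat.sqrt l * Nat.sqrt l + 2 * Nat.sqrt l := by
      by_contra hc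
      have h5 : sl l = false := k9_dec_false (BB A) hc
      rw [h5] at h2
      exact Bool.false_ne_true h2
    generalize Nat.sqrt l = k at h4
    have h6 : K ≤ k := by
      by_contra hc
      have h7 : k + 1 ≤ K := not_le.1 hc
      have h8 : k * k + 2 * k < K * K + 2 * K := by nlinarith
      omega
    rw [h4] at h2 ⊢
    rw [hbit k h6] at h2
    change BB A (k9_pos2 (k * k + 2 * k)) = true
    rw [hpos, k9_BB_head, h2]
  · exact h1

/-- There is a sequence with both properties. -/
theorem k10_exists : ∃ A : ℕ → Bool, KLs A ∧ ¬ KLs (BB A) := by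
  have h1 := k6_KLs dd k7_dd_tendsto k7_dd_le
  obtain ⟨A, hA, hm⟩ := (h1.and k7_majority).exists
  exact ⟨A, hA, k10_not A hA hm⟩

end Pool.H88K
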