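import Pool.Agent.Lib.H88K.Defs

/-!
# H88K, chunk K2: independence of a new place from the history
-/

set_option autoImplicit false

namespace Pool.H88K

open MeasureTheory ProbabilityTheory

/-- The history has length `k`. Induction. -/
theorem k2_length (P : List Bool → ℕ) (A : ℕ → Bool) (k : ℕ) : (hist P A k).length = k := by
  sorry

/-- The history up to `i ≤ k` is the initial segment of length `i` of the history up to `k`. Induction on `k`. -/
theorem k2_take (P : List Bool → ℕ) (A : ℕ → Bool) {i k : ℕ} (h : i ≤ k) : (hist P A k).take i = hist P A i := by
  sorry

/-- The history is the list of the bits at the inspected places. Induction on `k`, `List.ofFn_succ'` (or `List.ext_getElem`). -/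
theorem k2_ofFn (P : List Bool → ℕ) (A : ℕ → Bool) (k : ℕ) : hist P A k = List.ofFn (fun i : Fin k => A (pos P A i)) := by
  sorry

/-- Two sequences which agree on the places `P (w.take i)`, `i < k`, and one of which has the history `w` of length `k`, have the same history. Induction on `i ≤ k`: `hist P A' i = w.take i`. -/
theorem k2_congr (P : List Bool → ℕ) (A A' : ℕ → Bool) (w : List Bool) (h : hist P A w.length = w)
    (hA : ∀ i < w.length, A (P (w.take i)) = A' (P (w.take i))) : hist P A' w.length = w := by
  sorry

/-- The set of the sequences with history `w` is measurable. Proof: the function `A ↦ hist P A k` is measurable into `List Bool` with the discrete σ-algebra, or: the event is the finite intersection over `i < k` of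
`A (P (w.take i)) = w_i` (by induction), each of which is measurable by `measurable_pi_apply`. -/
theorem k2_meas (P : List Bool → ℕ) (k : ℕ) (w : List Bool) : MeasurableSet {A : ℕ → Bool | hist P A k = w} := by
  sorry

/-- **Independence**: if `n` is a new place for `w`, then the event `history = w` is independent of the bit `A n`: `∫⁻_{history = w} φ (A n) = μ(history = w) ∫⁻ φ d coin`. Proof: the event depends only on the coordinates in the
finite set `S = {P (w.take i)}` (`k2_congr`), `n ∉ S` (`Fresh`). With `X_i A = A i` and `iIndepFun_infinitePi` (or `iIndepFun_iff_map_fun_eq_infinitePi_map`, file Mathlib/Probability/Independence/InfinitePi.lean) the family of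
the coordinates is independent under `mu d`; `iIndepFun.indepFun_finset` for `S` and `{n}`; `lintegral_mul_eq_lintegral_mul_lintegral_of_indepFun` (or `lintegral_mul_indicator_eq_lintegral_mul_lintegral_indicator`) for the
indicator of the event and `φ (A n)`; the law of `A n` is `coin (d n)` (`Measure.infinitePi_map_eval`). -/
theorem k2_indep (d : ℕ → ℝ) (P : List Bool → ℕ) (w : List Bool) (h : Fresh P w) (φ : Bool → ENNReal) :
    ∫⁻ A in {A : ℕ → Bool | hist P A w.length = w}, φ (A (P w)) ∂(mu d) =
      mu d {A : ℕ → Bool | hist P A w.length = w} * ∫⁻ b, φ b ∂(coin (d (P w))) := by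
  sorry

end Pool.H88K
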