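import Pool.Agent.Lib.H88K.K2

/-!
# H88K, chunk K3: the martingale has mean at most one
-/

set_option autoImplicit false

namespace Pool.H88K

open MeasureTheory

/-- `Zm` depends only on the history: there is `z : List Bool → ENNReal` with `Zm P G φ A k = z (hist P A k)` for all `A` and `k`. Proof: define `z` by the product over `i < w.length` of the factors of the history
`w.take i` and the bit `w.getD i false` (`k2_take`, `k2_length`), induction on `k`. -/
theorem k3_z (P : List Bool → ℕ) (G : List Bool → Prop) (φ : ℕ → Bool → ENNReal) :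
    ∃ z : List Bool → ENNReal, ∀ (A : ℕ → Bool) (k : ℕ), Zm P G φ A k = z (hist P A k) := by
  sorry

/-- `Zm` is measurable: a function of the history, which takes countably many values (`k2_meas`): `Measurable` of `A ↦ hist P A k` into `List Bool` with the σ-algebra `⊤`. -/
theorem k3_meas (P : List Bool → ℕ) (G : List Bool → Prop) (φ : ℕ → Bool → ENNReal) (k : ℕ) :
    Measurable fun A : ℕ → Bool => Zm P G φ A k := by
  sorry

/-- **The martingale has mean at most one.** Induction on `k`: the sets `E_w = {A | hist P A k = w}` (`w` in `List Bool`, countable) are disjoint, measurable and cover everything, so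
`∫⁻ Zm (k+1) = ∑' w, ∫⁻_{E_w} Zm (k+1)` (`lintegral_iUnion`, `Measure.restrict_univ`). On `E_w` we have `Zm (k+1) A = z w * F`, `F = φ (P w) (A (P w))` if `G w` and `Fresh P w`, and `1` otherwise
(`w.length = k` if `E_w` is not empty, `k2_length`). By `k2_indep` and `hφ` the integral over `E_w` is `≤ z w * μ E_w`, the sum is `∫⁻ Zm k ≤ 1`. -/
theorem k3_mean (d : ℕ → ℝ) (P : List Bool → ℕ) (G : List Bool → Prop) (φ : ℕ → Bool → ENNReal)
    (hφ : ∀ n, ∫⁻ b, φ n b ∂(coin (d n)) ≤ 1) (k : ℕ) : ∫⁻ A, Zm P G φ A k ∂(mu d) ≤ 1 := by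
  sorry

end Pool.H88K
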