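import Pool.Agent.Lib.H88K.K3
import Pool.Agent.Lib.H88K.K1

/-!
# H88K, chunk K4: the tail bound
-/

set_option autoImplicit false

namespace Pool.H88K

open MeasureTheory

/-- The number of selections in the run with history `w` before the last bit. (Auxiliary: the condition of the martingale.) -/
def k4_num (C : List Bool → Bool) (w : List Bool) : ℕ := ((List.range w.length).filter fun i => C (w.take i)).length

theorem k4_filter (g : ℕ → Bool) (k : ℕ) :
    ((List.range k).filter g).length = Nat.count (fun i => g i = true) k := by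
  induction k with
  | zero => simp
  | succ k ih =>
    rw [List.range_succ, List.filter_append, List.length_append, ih, Nat.count_succ]
    congr 1
    by_cases h : g k = true
    · simp [h]
    · simp [h]

theorem k4_num_eq (P : List Bool → ℕ) (C : List Bool → Bool) (A : ℕ → Bool) (k : ℕ) :
    k4_num C (hist P A k) = Nat.count (fun i => sel P C A i = true) k := by
  rw [k4_num, k2_length]
  rw [← k4_filter (fun i => sel P C A i) k]
  congr 1
  apply List.filter_congr
  intro i hi
  rw [List.mem_range] at hi
  rw [k2_take P A hi.le]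
  rfl

theorem k4_min (P : List Bool → ℕ) (C : List Bool → Bool) (φ : ℕ → Bool → ENNReal) (A : ℕ → Bool) (h : Good P C A) (m k : ℕ) :
    Zm P (fun w => C w = true ∧ k4_num C w < m) φ A k =
      ∏ j ∈ Finset.range (min m (Nat.count (fun i => sel P C A i = true) k)), φ (spl P C A j) (A (spl P C A j)) := by
  induction k with
  | zero => simp [Zm]
  | succ k ih =>
    have hF : Fresh P (hist P A k) := by
      intro i hi
      rw [k2_length] at hi
      rw [k2_take P A hi.le]
      intro he
      have := h.1 (show pos P A i = pos P A k from he)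
      omega
    rw [Zm, ih, Nat.count_succ]
    by_cases hs : sel P C A k = true
    · rw [if_pos hs]
      by_cases hm : Nat.count (fun i => sel P C A i = true) k < m
      · have hG : (C (hist P A k) = true ∧ k4_num C (hist P A k) < m) ∧ Fresh P (hist P A k) :=
          ⟨⟨hs, by rw [k4_num_eq]; exact hm⟩, hF⟩
        rw [if_pos hG, min_eq_right hm.le, min_eq_right (by omega), Finset.prod_range_succ]
        have hn : Nat.nth (fun i => sel P C A i = true) (Nat.count (fun i => sel P C A i = true) k) = k :=
          Nat.nth_count hs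
        have hsp : spl P C A (Nat.count (fun i => sel P C A i = true) k) = P (hist P A k) := by
          rw [spl, hn]
          rfl
        rw [hsp]
      · have hG : ¬ ((C (hist P A k) = true ∧ k4_num C (hist P A k) < m) ∧ Fresh P (hist P A k)) := by
          intro hG
          apply hm
          rw [← k4_num_eq]
          exact hG.1.2
        rw [if_neg hG, mul_one, min_eq_left (by omega), min_eq_left (by omega)]
    · rw [if_neg hs]
      have hG : ¬ ((C (hist P A k) = true ∧ k4_num C (hist P A k) < m) ∧ Fresh P (hist P A k)) := by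
        intro hG
        exact hs hG.1.1
      rw [if_neg hG, mul_one, add_zero]

/-- If the run on `A` is fair and more than `m` ... : for `G w = (C w = true ∧ k4_num C w < m)` (the first `m` selections) and `k` larger than the time of the `m`-th selection, `Zm` is the product of the factors of
the first `m` selected places. Proof: for a fair run all places are new (`k2_take`: `Fresh P (hist P A k)` for all `k`); `k4_num C (hist P A k) = Nat.count (fun i => sel P C A i = true) k`; by induction on `k`:
`Zm ... k = ∏ j in range (min m (count k)), φ (spl j) (A (spl j))` (`Nat.nth_count`, `Nat.count_succ`); and `count k ≥ m` for `k > nth (m - 1)` (`Nat.count_nth_of_infinite`, `Nat.count_monotone`). -/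
theorem k4_prod (P : List Bool → ℕ) (C : List Bool → Bool) (φ : ℕ → Bool → ENNReal) (A : ℕ → Bool) (h : Good P C A) (m : ℕ) :
    ∃ k₀ : ℕ, ∀ k ≥ k₀, Zm P (fun w => C w = true ∧ k4_num C w < m) φ A k =
      ∏ j ∈ Finset.range m, φ (spl P C A j) (A (spl P C A j)) := by
  refine ⟨Nat.nth (fun i => sel P C A i = true) m, ?_⟩
  intro k hk
  rw [k4_min P C φ A h m k]
  have h1 : m ≤ Nat.count (fun i => sel P C A i = true) k := by
    have h2 := Nat.count_nth_of_infinite (p := fun i => sel P C A i = true) h.2 m
    calc m = Nat.count (fun i => sel P C A i = true) (Nat.nth (fun i => sel P C A i = true) m) := h2.symm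
      _ ≤ _ := Nat.count_monotone _ hk
  rw [min_eq_left h1]

/-- **The tail bound**: with probability `≥ 1 - exp (-a m)` the product of the factors of the first `m` selected places is `< exp (a m)`. Proof: the set is contained in the increasing union over `k₀` of the sets `D_{k₀}` of the
`A` with `Zm ... A k ≥ ofReal (exp (a m))` for all `k ≥ k₀` (`k4_prod`; `∏ ofReal = ofReal ∏`: `ENNReal.ofReal_prod_of_nonneg`, `fac > 0` by `k1_mom_pos`). `μ D_{k₀} ≤ exp (-a m)` by Markov (`mul_meas_ge_le_lintegral`, `k3_meas`,
`k3_mean` with `k1_fac`), and `measure_iUnion_eq_iSup` (monotone) gives the bound for the union. -/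
theorem k4_tail (d : ℕ → ℝ) (P : List Bool → ℕ) (C : List Bool → Bool) (l a : ℝ) (m : ℕ) :
    mu d {A : ℕ → Bool | Good P C A ∧
      Real.exp (a * m) ≤ ∏ j ∈ Finset.range m, fac l (d (spl P C A j)) (A (spl P C A j))} ≤
      ENNReal.ofReal (Real.exp (-(a * m))) := by
  set φ : ℕ → Bool → ENNReal := fun n b => ENNReal.ofReal (fac l (d n) b) with hφ
  set G : List Bool → Prop := fun w => C w = true ∧ k4_num C w < m with hG
  set D : ℕ → Set (ℕ → Bool) := fun k₀ => {A | ∀ k ≥ k₀, ENNReal.ofReal (Real.exp (a * m)) ≤ Zm P G φ A k} with hD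
  have hfac : ∀ δ b, 0 ≤ fac l δ b := fun δ b => div_nonneg (Real.exp_pos _).le (k1_mom_pos l δ).le
  have hsub : {A : ℕ → Bool | Good P C A ∧
      Real.exp (a * m) ≤ ∏ j ∈ Finset.range m, fac l (d (spl P C A j)) (A (spl P C A j))} ⊆ ⋃ k₀, D k₀ := by
    rintro A ⟨hA, hAe⟩
    obtain ⟨k₀, hk₀⟩ := k4_prod P C φ A hA m
    refine Set.mem_iUnion.2 ⟨k₀, ?_⟩
    intro k hk
    rw [hG, hk₀ k hk]
    have h1 : ∏ j ∈ Finset.range m, φ (spl P C A j) (A (spl P C A j)) =
        ENNReal.ofReal (∏ j ∈ Finset.range m, fac l (d (spl P C A j)) (A (spl P C A j))) := by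
      rw [ENNReal.ofReal_prod_of_nonneg fun j _ => hfac _ _]
    rw [h1]
    exact ENNReal.ofReal_le_ofReal hAe
  have hmono : Monotone D := by
    intro i j hij A hA k hk
    exact hA k (hij.trans hk)
  have hDk : ∀ k₀, mu d (D k₀) ≤ ENNReal.ofReal (Real.exp (-(a * m))) := by
    intro k₀
    have h1 : D k₀ ⊆ {A | ENNReal.ofReal (Real.exp (a * m)) ≤ Zm P G φ A k₀} := fun A hA => hA k₀ le_rfl
    have hpos : ENNReal.ofReal (Real.exp (a * m)) ≠ 0 := by
      rw [Ne, ENNReal.ofReal_eq_zero, not_le]
      exact Real.exp_pos _
    refine (measure_mono h1).trans ?_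
    refine (meas_ge_le_lintegral_div (k3_meas P G φ k₀).aemeasurable hpos ENNReal.ofReal_ne_top).trans ?_
    refine (ENNReal.div_le_div_right (k3_mean d P G φ (fun n => (k1_fac l (d n)).le) k₀) _).trans ?_
    rw [Real.exp_neg, ENNReal.ofReal_inv_of_pos (Real.exp_pos _), one_div]
  refine (measure_mono hsub).trans ?_
  rw [hmono.measure_iUnion]
  exact iSup_le hDk

end Pool.H88K
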