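import Pool.Agent.Lib.H88K.K1

/-!
# H88K, chunk K5: the deterministic part of the law of large numbers
-/

set_option autoImplicit false

namespace Pool.H88K

open Filter

/-- The frequency and the sum of the signs: `∑_{j<m} sg (x j) = 2 #{j < m : x j} - m`. -/
theorem k5_sum (x : ℕ → Bool) (m : ℕ) :
    ∑ j ∈ Finset.range m, sg (x j) = 2 * (((Finset.range m).filter (fun j => x j = true)).card : ℝ) - m := by
  induction m with
  | zero => simp
  | succ m ih =>
    rw [Finset.sum_range_succ, ih, Finset.range_add_one, Finset.filter_insert]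
    cases hx : x m with
    | true =>
      rw [if_pos rfl, Finset.card_insert_of_notMem (by simp)]
      unfold sg
      push_cast
      simp
      ring
    | false =>
      rw [if_neg (by simp)]
      unfold sg
      push_cast
      ring

/-- The mean of the biases tends to `0`: `n` is injective, so `n j → ∞` (`Function.Injective.nat_tendsto_atTop`), `|d (n j)| → 0`, and Cesàro (`Filter.Tendsto.cesaro`). -/
theorem k5_cesaro (d : ℕ → ℝ) (hd : Tendsto d atTop (nhds 0)) (n : ℕ → ℕ) (hn : Function.Injective n) :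
    Tendsto (fun m : ℕ => (∑ j ∈ Finset.range m, |d (n j)|) / (m : ℝ)) atTop (nhds 0) := by
  have h1 : Tendsto (fun j => |d (n j)|) atTop (nhds 0) := by
    have h2 := (hd.comp hn.nat_tendsto_atTop).abs
    rw [abs_zero] at h2
    exact h2
  have h3 := h1.cesaro
  refine h3.congr (fun m => ?_)
  rw [div_eq_inv_mul]

/-- **The deterministic part.** Suppose for all `l = ± 1 / (r + 1)` the products of the factors are eventually `< exp (l ^ 2 m)`. Then the law of large numbers holds. Proof: taking logarithms (`k1_mom_pos`, `k1_mom_log`):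
`l ∑ sg (x j) ≤ l ^ 2 m + ∑ log M ≤ (3/2) l ^ 2 m + 2 |sinh l| ∑ |d (n j)|`; divide by `|l| m`: `± (∑ sg) / m ≤ (3/2) |l| + (2 |sinh l| / |l|) * (mean of the |d|)`, and the last term tends to `0` (`k5_cesaro`). So
`limsup |∑ sg| / m ≤ (3/2) / (r + 1)` for all `r`, `(∑ sg) / m → 0`, and the frequency is `(1 + (∑ sg) / m) / 2` (`k5_sum`). -/
theorem k5_lln (d : ℕ → ℝ) (hd : Tendsto d atTop (nhds 0)) (hb : ∀ n, |d n| ≤ 1 / 4) (x : ℕ → Bool) (n : ℕ → ℕ)
    (hn : Function.Injective n)
    (h : ∀ (r : ℕ) (s : Bool), ∀ᶠ m : ℕ in atTop,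
      ∏ j ∈ Finset.range m, fac (sg s / (r + 1)) (d (n j)) (x j) < Real.exp ((1 / ((r : ℝ) + 1)) ^ 2 * m)) :
    LLN x := by
  have hces := k5_cesaro d hd n hn
  have hlog : ∀ (l : ℝ) (m : ℕ), Real.log (∏ j ∈ Finset.range m, fac l (d (n j)) (x j)) =
      l * ∑ j ∈ Finset.range m, sg (x j) - ∑ j ∈ Finset.range m, Real.log (mom l (d (n j))) := by
    intro l m
    rw [Real.log_prod, Finset.mul_sum, ← Finset.sum_sub_distrib]
    · refine Finset.sum_congr rfl (fun j _ => ?_)
      unfold fac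
      rw [Real.log_div (Real.exp_ne_zero _) (ne_of_gt (k1_mom_pos _ _)), Real.log_exp]
    · intro j _
      unfold fac
      exact div_ne_zero (Real.exp_ne_zero _) (ne_of_gt (k1_mom_pos _ _))
  have hprod : ∀ (l : ℝ) (m : ℕ), 0 < ∏ j ∈ Finset.range m, fac l (d (n j)) (x j) := by
    intro l m
    refine Finset.prod_pos (fun j _ => ?_)
    unfold fac
    exact div_pos (Real.exp_pos _) (k1_mom_pos _ _)
  have hone : ∀ (r : ℕ) (s : Bool), ∀ᶠ m : ℕ in atTop,
      sg s * ((1 / ((r : ℝ) + 1)) * ∑ j ∈ Finset.range m, sg (x j)) ≤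
        3 / 2 * (1 / ((r : ℝ) + 1)) ^ 2 * m + 2 * Real.sinh (1 / ((r : ℝ) + 1)) * ∑ j ∈ Finset.range m, |d (n j)| := by
    intro r s
    have hr : (0 : ℝ) < 1 / ((r : ℝ) + 1) := by positivity
    filter_upwards [h r s] with m hm
    have h1 : Real.log (∏ j ∈ Finset.range m, fac (sg s / (r + 1)) (d (n j)) (x j)) ≤ (1 / ((r : ℝ) + 1)) ^ 2 * m := by
      have := Real.log_le_log (hprod _ m) hm.le
      rwa [Real.log_exp] at this
    rw [hlog] at h1
    have hsq : (sg s / ((r : ℝ) + 1)) ^ 2 = (1 / ((r : ℝ) + 1)) ^ 2 := by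
      rw [div_pow, div_pow]
      congr 1
      cases s <;> simp [sg]
    have habs : |Real.sinh (sg s / ((r : ℝ) + 1))| = Real.sinh (1 / ((r : ℝ) + 1)) := by
      have hs : 0 ≤ Real.sinh (1 / ((r : ℝ) + 1)) := Real.sinh_nonneg_iff.2 hr.le
      cases s with
      | true =>
        have : sg true = 1 := by simp [sg]
        rw [this, abs_of_nonneg hs]
      | false =>
        have : sg false = -1 := by simp [sg]
        rw [this, neg_div, Real.sinh_neg, abs_neg, abs_of_nonneg hs]
    have h2 : ∑ j ∈ Finset.range m, Real.log (mom (sg s / (r + 1)) (d (n j))) ≤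
        (1 / ((r : ℝ) + 1)) ^ 2 / 2 * m + 2 * Real.sinh (1 / ((r : ℝ) + 1)) * ∑ j ∈ Finset.range m, |d (n j)| := by
      have h3 : ∀ j ∈ Finset.range m, Real.log (mom (sg s / (r + 1)) (d (n j))) ≤
          (1 / ((r : ℝ) + 1)) ^ 2 / 2 + 2 * Real.sinh (1 / ((r : ℝ) + 1)) * |d (n j)| := by
        intro j _
        have := k1_mom_log (sg s / (r + 1)) (d (n j)) (hb _)
        rw [hsq, habs] at this
        linarith
      have h4 := Finset.sum_le_sum h3
      rw [Finset.sum_add_distrib, Finset.sum_const, Finset.card_range, nsmul_eq_mul, ← Finset.mul_sum] at h4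
      linarith
    have h5 : sg s * ((1 / ((r : ℝ) + 1)) * ∑ j ∈ Finset.range m, sg (x j)) =
        sg s / ((r : ℝ) + 1) * ∑ j ∈ Finset.range m, sg (x j) := by ring
    rw [h5]
    linarith
  have hS : Tendsto (fun m : ℕ => (∑ j ∈ Finset.range m, sg (x j)) / (m : ℝ)) atTop (nhds 0) := by
    rw [Metric.tendsto_atTop]
    intro ε hε
    obtain ⟨r, hr⟩ := exists_nat_gt (3 / ε)
    set L : ℝ := 1 / ((r : ℝ) + 1) with hL
    have hL0 : 0 < L := by positivity
    have hLε : 3 / 2 * L < ε / 2 := by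
      rw [hL]
      rw [div_lt_iff₀ hε] at hr
      have h1 : (0 : ℝ) < (r : ℝ) + 1 := by positivity
      rw [mul_one_div, div_lt_iff₀ h1]
      nlinarith
    have hc : Tendsto (fun m : ℕ => 2 * Real.sinh L / L * ((∑ j ∈ Finset.range m, |d (n j)|) / (m : ℝ))) atTop (nhds 0) := by
      have := hces.const_mul (2 * Real.sinh L / L)
      rwa [mul_zero] at this
    have h2 := hc.eventually (gt_mem_nhds (show (0 : ℝ) < ε / 2 by positivity))
    have h3 := (((h2.and (hone r true)).and (hone r false)).and (eventually_gt_atTop 0))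
    obtain ⟨N, hN⟩ := eventually_atTop.1 h3
    refine ⟨N, fun m hm => ?_⟩
    obtain ⟨⟨⟨ha, ht⟩, hf⟩, hm0⟩ := hN m hm
    have hm1 : (0 : ℝ) < m := by exact_mod_cast hm0
    rw [Real.dist_eq, sub_zero, abs_div, abs_of_pos hm1, div_lt_iff₀ hm1]
    have e1 : sg true = 1 := by simp [sg]
    have e2 : sg false = -1 := by simp [sg]
    rw [e1, ← hL] at ht
    rw [e2, ← hL] at hf
    have hab : L * |∑ j ∈ Finset.range m, sg (x j)| ≤
        3 / 2 * L ^ 2 * m + 2 * Real.sinh L * ∑ j ∈ Finset.range m, |d (n j)| := by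
      rcases abs_cases (∑ j ∈ Finset.range m, sg (x j)) with ⟨h4, _⟩ | ⟨h4, _⟩
      · rw [h4]
        linarith
      · rw [h4]
        linarith
    have ha2 : 2 * Real.sinh L * (∑ j ∈ Finset.range m, |d (n j)|) < ε / 2 * m * L := by
      have h5 : 2 * Real.sinh L / L * ((∑ j ∈ Finset.range m, |d (n j)|) / (m : ℝ)) =
          2 * Real.sinh L * (∑ j ∈ Finset.range m, |d (n j)|) / (m * L) := by
        field_simp
      rw [h5, div_lt_iff₀ (by positivity)] at ha
      linarith
    have h6 : L * |∑ j ∈ Finset.range m, sg (x j)| < L * (ε * m) := by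
      have h7 : 3 / 2 * L ^ 2 * m < ε / 2 * m * L := by
        have : 3 / 2 * L ^ 2 * m = (3 / 2 * L) * (m * L) := by ring
        rw [this]
        have h8 : ε / 2 * m * L = (ε / 2) * (m * L) := by ring
        rw [h8]
        exact mul_lt_mul_of_pos_right hLε (by positivity)
      nlinarith
    exact lt_of_mul_lt_mul_left h6 hL0.le
  unfold LLN
  have h9 : Tendsto (fun m : ℕ => (1 + (∑ j ∈ Finset.range m, sg (x j)) / (m : ℝ)) / 2) atTop (nhds (1 / 2 : ℝ)) := by
    have := (hS.const_add 1).div_const 2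
    rwa [add_zero] at this
  refine h9.congr' ?_
  filter_upwards [eventually_gt_atTop 0] with m hm
  have hm1 : (0 : ℝ) < m := by exact_mod_cast hm
  rw [k5_sum]
  field_simp
  ring

end Pool.H88K
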