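import Pool.Agent.Lib.H88K.K4
import Pool.Agent.Lib.H88K.K5

/-!
# H88K, chunk K6: the random sequence is KL-stochastic
-/

set_option autoImplicit false

namespace Pool.H88K

open MeasureTheory Filter

/-- For one rule: almost surely, if the run is fair, the selected sequence satisfies the law of large numbers. Proof: for `l = sg s / (r + 1)` and `a = (1/(r+1))^2 > 0` the bounds of `k4_tail` are summable (geometric series),
so by Borel-Cantelli (`measure_limsup_atTop_eq_zero` or `ae_eventually_notMem`) almost surely eventually the product is `< exp (a m)` if the run is fair; countably many `(r, s)` (`ae_all_iff`); then `k5_lln` with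
`n = spl P C A` (injective: `pos` is injective and `Nat.nth` is injective on an infinite set, `Nat.nth_injective`). -/
theorem k6_rule (d : ℕ → ℝ) (hd : Tendsto d atTop (nhds 0)) (hb : ∀ n, |d n| ≤ 1 / 4) (P : List Bool → ℕ)
    (C : List Bool → Bool) : ∀ᵐ A ∂(mu d), Good P C A → LLN (fun j => A (spl P C A j)) := by
  sorry

/-- There are only countably many partial computable functions. Proof: `Partrec f` says that `fun n => Part.bind (decode n) fun a => (f a).map encode` is `Nat.Partrec`, hence equal to `Nat.Partrec.Code.eval c` for some code `c`
(`Nat.Partrec.Code.exists_code`); this function determines `f` (`encodek`, `Encodable.encode_injective`), and the codes are countable (`Nat.Partrec.Code` is `Denumerable`). Or search for an instance in Mathlib. -/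
theorem k6_countable : Set.Countable {f : List Bool →. ℕ × Bool | Partrec f} := by
  sorry

/-- **Almost surely the sequence is KL-stochastic.** For each of the countably many `f` (`k6_countable`, `ae_ball_iff` ) take `P w = (f w).get.1`, `C w = (f w).get.2` if `f w` is defined (and `0`, `false` otherwise). If
`f (List.ofFn (fun i => A (pos i))) = some (pos k, sel k)` for all `k` then `hist P A k = List.ofFn (fun i : Fin k => A (pos i))`, `Pool.H88K.pos P A k = pos k` and `Pool.H88K.sel P C A k = sel k` by induction on `k`
(`List.ofFn_succ'`), so `Good P C A` and the sequence in `KLs` is the one of `k6_rule`. -/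
theorem k6_KLs (d : ℕ → ℝ) (hd : Tendsto d atTop (nhds 0)) (hb : ∀ n, |d n| ≤ 1 / 4) : ∀ᵐ A ∂(mu d), KLs A := by
  sorry

end Pool.H88K
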