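import Pool.Agent.Lib.H88K.K10

/-!
# H88K: the result
-/

set_option autoImplicit false

namespace Pool.H88K

theorem main :
    ¬ (∀ KL : (ℕ → Bool) → Prop,
      (∀ X : ℕ → Bool, KL X ↔
        ∀ f : List Bool →. ℕ × Bool, Partrec f →
        ∀ pos : ℕ → ℕ, ∀ sel : ℕ → Bool,
          (∀ k : ℕ, f (List.ofFn (fun i : Fin k => X (pos i))) = Part.some (pos k, sel k)) →
          Function.Injective pos →
          Set.Infinite {k : ℕ | sel k = true} →
          Filter.Tendsto
            (fun m : ℕ =>
              (((Finset.range m).filter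
                (fun j => X (pos (Nat.nth (fun k => sel k = true) j)) = true)).card : ℝ) / (m : ℝ))
            Filter.atTop (nhds (1 / 2 : ℝ))) →
      ∀ A : ℕ → Bool, KL A →
      ∀ f : List Bool →. ℕ × Bool, Partrec f →
      ∀ pos : ℕ → ℕ, ∀ sel : ℕ → Bool,
        (∀ k : ℕ, f (List.ofFn (fun i : Fin k => A (pos i))) = Part.some (pos k, sel k)) →
        Function.Injective pos →
        Set.Infinite {k : ℕ | sel k = true} →
        KL (fun j : ℕ => A (pos (Nat.nth (fun k => sel k = true) j)))) := by
  intro H
  obtain ⟨A, hA, hB⟩ := k10_exists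
  have h1 := H KLs (fun X => Iff.rfl) A hA (fun w : List Bool => (Part.some (f1 w, true) : Part (ℕ × Bool))) k8_rule1 (pos1 A)
    (fun _ => true) (fun k => by rw [k9_run1]) (k9_pos1_inj A)
    (by
      have : {k : ℕ | (fun _ : ℕ => true) k = true} = Set.univ := by ext; simp
      rw [this]
      exact Set.infinite_univ)
  apply hB
  have h2 : (fun j : ℕ => A (pos1 A (Nat.nth (fun k => (fun _ : ℕ => true) k = true) j))) = BB A := by
    funext j
    have h3 : Nat.nth (fun k => (fun _ : ℕ => true) k = true) j = j := by
      have h4 := Nat.nth_count (p := fun _ : ℕ => true = true) (n := j) rfl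
      have h5 : Nat.count (fun _ : ℕ => true = true) j = j := by
        induction j with
        | zero => rfl
        | succ n ih => 
          have h6 := ih (Nat.nth_count (p := fun _ : ℕ => true = true) (n := n) rfl)
          rw [Nat.count_succ, h6]
          simp
      rw [h5] at h4
      exact h4
    rw [h3]
    rfl
  rw [h2] at h1
  exact h1

end Pool.H88K
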